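import Pool.Agent.H242R3.ES.Full
import Pool.Agent.H841.ES.K8a
import Pool.Agent.H47.K8bCopy

/-!
# MP_dcc731_co, Q2: the 120-cell is Möbius unique

This is a special case of the theorem behind the frozen statement `S08421`
(every edge-scribable polytope of dimension at least three is Möbius unique).
-/

set_option autoImplicit false

open Matrix

namespace Pool.Agent.Results.MP_dcc731_co.HundredTwentyCell

/-- The convex hull of a set of points of `ℝ⁴`. -/
abbrev hull (V : Set (Fin 4 → ℝ)) : Set (Fin 4 → ℝ) := convexHull ℝ V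

/-- The vertices of the polytope `hull V`. -/
abbrev vert (V : Set (Fin 4 → ℝ)) : Set (Fin 4 → ℝ) := Set.extremePoints ℝ (hull V)

/-- The polytope `hull V` is four-dimensional. -/
def FullDim (V : Set (Fin 4 → ℝ)) : Prop := (interior (hull V)).Nonempty

/-- Every edge of the polytope `hull V` is tangent to the unit sphere: it contains a point of the
sphere, and the line spanned by it does not enter the open unit ball. -/
def EdgeScribed (V : Set (Fin 4 → ℝ)) : Prop :=
  ∀ a ∈ V, ∀ b ∈ V, a ≠ b → IsExposed ℝ (hull V) (segment ℝ a b) →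
    ∃ p ∈ segment ℝ a b, ∑ i, p i ^ 2 = 1 ∧ ∀ t : ℝ, 1 ≤ ∑ i, (a i + t * (b i - a i)) ^ 2

/-- The polytopes `hull V` and `hull W` are combinatorially equivalent: there is a bijection
between their vertex sets which, together with its inverse, carries faces to faces. -/
def CombEquiv (V W : Set (Fin 4 → ℝ)) : Prop :=
  ∃ f : (Fin 4 → ℝ) → (Fin 4 → ℝ), Set.BijOn f (vert V) (vert W) ∧
    ∀ S ⊆ vert V, (IsExposed ℝ (hull V) (convexHull ℝ S) ↔
      IsExposed ℝ (hull W) (convexHull ℝ (f '' S)))

/-- The Lorentz form `diag(-1, 1, 1, 1, 1)`; the index `none` is the time coordinate. -/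
def lorentz : Matrix (Option (Fin 4)) (Option (Fin 4)) ℝ :=
  Matrix.diagonal (fun i => Option.elim i (-1 : ℝ) (fun _ => (1 : ℝ)))

/-- The point `(1, x)`. -/
def lift (x : Fin 4 → ℝ) : Option (Fin 4) → ℝ := fun i => Option.elim i (1 : ℝ) x

/-- Some Lorentz transformation `M` of `ℝ^{1,4}`, acting projectively on `ℝ⁴` (this is the action
which restricts to the Möbius group on the unit sphere `S³`), is defined on `hull V` and maps it
onto `hull W`. -/
def MoebiusEquiv (V W : Set (Fin 4 → ℝ)) : Prop :=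
  ∃ M : Matrix (Option (Fin 4)) (Option (Fin 4)) ℝ,
    M.transpose * lorentz * M = lorentz ∧
    (∀ x ∈ hull V, (M *ᵥ lift x) none ≠ 0) ∧
    (fun x : Fin 4 → ℝ => fun j : Fin 4 => (M *ᵥ lift x) (some j) / (M *ᵥ lift x) none) ''
      hull V = hull W

/-- The polytope `hull C` has a Möbius unique combinatorial type: any two edge-scribed
realizations of it (convex hulls of finite sets) are Möbius equivalent. -/
def MoebiusUnique (C : Set (Fin 4 → ℝ)) : Prop :=
  ∀ V W : Finset (Fin 4 → ℝ), FullDim V → FullDim W → EdgeScribed V → EdgeScribed W →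
    CombEquiv C V → CombEquiv C W → MoebiusEquiv V W

/-- All points obtained from `(a, b, c, d)` by all permutations of the coordinates and all
changes of sign. -/
def allPerm (a b c d : ℝ) : Set (Fin 4 → ℝ) :=
  {x | ∃ (σ : Equiv.Perm (Fin 4)) (s : Fin 4 → ℝ), (∀ i, s i = 1 ∨ s i = -1) ∧
    ∀ i, x i = s i * ![a, b, c, d] (σ i)}

/-- All points obtained from `(a, b, c, d)` by the even permutations of the coordinates and all
changes of sign. -/
def evenPerm (a b c d : ℝ) : Set (Fin 4 → ℝ) :=
  {x | ∃ (σ : Equiv.Perm (Fin 4)) (s : Fin 4 → ℝ), Equiv.Perm.sign σ = 1 ∧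
    (∀ i, s i = 1 ∨ s i = -1) ∧ ∀ i, x i = s i * ![a, b, c, d] (σ i)}

/-- The golden ratio. -/
noncomputable def phi : ℝ := (1 + Real.sqrt 5) / 2

/-- The `24 + 64 + 64 + 64 + 96 + 96 + 192 = 600` vertices of a regular 120-cell `{5,3,3}`. -/
noncomputable def cell120 : Set (Fin 4 → ℝ) :=
  allPerm 0 0 2 2 ∪ allPerm 1 1 1 (Real.sqrt 5) ∪ allPerm (phi⁻¹ ^ 2) phi phi phi ∪
    allPerm phi⁻¹ phi⁻¹ phi⁻¹ (phi ^ 2) ∪ evenPerm 0 (phi⁻¹ ^ 2) 1 (phi ^ 2) ∪
    evenPerm 0 phi⁻¹ phi (Real.sqrt 5) ∪ evenPerm phi⁻¹ 1 phi 2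

/-- Two polytopes combinatorially equivalent to a third are combinatorially equivalent. -/
lemma CombEquiv.symm_trans {C V W : Set (Fin 4 → ℝ)} (h1 : CombEquiv C V) (h2 : CombEquiv C W) :
    CombEquiv V W := by
  classical
  obtain ⟨f, hf, hf2⟩ := h1
  obtain ⟨g, hg, hg2⟩ := h2
  have hinv : Set.InvOn (Function.invFunOn f (vert C)) f (vert C) (vert V) :=
    hf.invOn_invFunOn
  have hb : Set.BijOn (Function.invFunOn f (vert C)) (vert V) (vert C) :=
    Set.BijOn.symm hinv.symm hf
  refine ⟨g ∘ Function.invFunOn f (vert C), hg.comp hb, ?_⟩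
  intro S hS
  set T := Function.invFunOn f (vert C) '' S with hT
  have hTC : T ⊆ vert C := by
    rintro _ ⟨x, hx, rfl⟩
    exact hb.mapsTo (hS hx)
  have hfT : f '' T = S := by
    rw [hT, Set.image_image]
    apply Set.Subset.antisymm
    · rintro _ ⟨x, hx, rfl⟩
      have : f (Function.invFunOn f (vert C) x) = x := hinv.2 (hS hx)
      change f (Function.invFunOn f (vert C) x) ∈ S
      rw [this]
      exact hx
    · intro x hx
      exact ⟨x, hx, hinv.2 (hS hx)⟩
  rw [Set.image_comp, ← hT, ← hg2 T hTC, hf2 T hTC, hfT]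

/-- Every combinatorial type of four-dimensional polytope is Möbius unique. -/
lemma moebiusUnique (C : Set (Fin 4 → ℝ)) : MoebiusUnique C := by
  intro V W hV hW eV eW h1 h2
  have h := Pool.Agent.H242R3.ES.Full.finalG Pool.Agent.H841.ESK8a.t Pool.Agent.H47.K8b.main_k8b
    3 (by norm_num) V W hV hW eV eW (h1.symm_trans h2)
  exact h

/-- **Q2.** The 120-cell is Möbius unique. -/
theorem result : MoebiusUnique cell120 := moebiusUnique _

end Pool.Agent.Results.MP_dcc731_co.HundredTwentyCell
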